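import Mathlib

namespace Pool.Agent.Results.MP_091b59_co.Bounded

open Finset

/-- sum index -/
noncomputable def sm {V : Type} (G : SimpleGraph V) : ℕ :=
  sInf {n | ∃ f : V → ℤ, Function.Injective f ∧
    {s | ∃ u v, G.Adj u v ∧ s = f u + f v}.ncard = n}

/-- `g` is a sum labelling of `H` -/
def SumLabelling {W : Type} (H : SimpleGraph W) (g : W → ℕ) : Prop :=
  Function.Injective g ∧ (∀ x, 0 < g x) ∧ ∀ x y, x ≠ y → (H.Adj x y ↔ ∃ w, g x + g y = g w)

/-- `G` plus `r` isolated vertices has an exclusive sum labelling -/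
def Excl {V : Type} (G : SimpleGraph V) (r : ℕ) : Prop :=
  ∃ g : V ⊕ Fin r → ℕ, SumLabelling (G.sum (⊥ : SimpleGraph (Fin r))) g ∧
    ∀ u v, G.Adj u v → ∃ i, g (Sum.inl u) + g (Sum.inl v) = g (Sum.inr i)

lemma dec {M a b a' b' : ℕ} (ha : a < M) (ha' : a' < M) (h : a + M * b = a' + M * b') :
    a = a' ∧ b = b' := by
  have h1 : a = a' := by
    have := congrArg (· % M) h
    simpa [Nat.mod_eq_of_lt ha, Nat.mod_eq_of_lt ha'] using this
  subst h1
  exact ⟨rfl, Nat.eq_of_mul_eq_mul_left (by omega) (add_left_cancel h)⟩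

lemma excl_of {V : Type} [Fintype V] (G : SimpleGraph V) (h : V → ℕ) (hi : Function.Injective h)
    (T : Finset ℕ) (hT : ∀ u v, u ≠ v → (G.Adj u v ↔ h u + h v ∈ T)) : Excl G T.card := by
  refine ⟨Sum.elim (fun v => 4 * h v + 1) (fun i => 4 * (T.equivFin.symm i : ℕ) + 2),
    ⟨?_, ?_, ?_⟩, ?_⟩
  · rintro (a | a) (b | b) e <;> simp only [Sum.elim_inl, Sum.elim_inr] at e
    · rw [hi (by omega : h a = h b)]
    · omega
    · omega
    · rw [T.equivFin.symm.injective (Subtype.ext (by omega) : T.equivFin.symm a = T.equivFin.symm b)]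
  · rintro (a | a) <;> simp
  · rintro (a | a) (b | b) hne
    · refine (hT a b (fun e => hne (by rw [e]))).trans ⟨?_, ?_⟩
      · intro hm
        exact ⟨Sum.inr (T.equivFin ⟨_, hm⟩), by simp; omega⟩
      · rintro ⟨w | w, e⟩ <;> simp only [Sum.elim_inl, Sum.elim_inr] at e
        · omega
        · rw [show h a + h b = T.equivFin.symm w by omega]
          exact (T.equivFin.symm w).2
    all_goals
      simp only [SimpleGraph.sum_adj, SimpleGraph.bot_adj, false_iff]
      rintro ⟨w | w, e⟩ <;> simp only [Sum.elim_inl, Sum.elim_inr] at e <;> omega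
  · intro u v huv
    exact ⟨T.equivFin ⟨_, (hT u v huv.ne).mp huv⟩, by simp; omega⟩

theorem result (C : ℕ) : ∃ N : ℕ, ∀ (V : Type) [Fintype V] (G : SimpleGraph V), sm G ≤ C →
    ∃ r ≤ N, IsLeast {r | Excl G r} r := by
  classical
  refine ⟨C * (2 ^ C * 2 ^ C), fun V _ G hG => ?_⟩
  suffices ∃ r ≤ C * (2 ^ C * 2 ^ C), Excl G r by
    obtain ⟨r, hr, he⟩ := this
    exact ⟨sInf {r | Excl G r}, le_trans (Nat.sInf_le he) hr, Nat.sInf_mem ⟨r, he⟩,
      fun _ h => Nat.sInf_le h⟩
  obtain ⟨f, hf, hn⟩ := Nat.sInf_mem (s := {n | ∃ f : V → ℤ, Function.Injective f ∧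
    {s | ∃ u v, G.Adj u v ∧ s = f u + f v}.ncard = n})
    ⟨_, fun v => ((Fintype.equivFin V v : ℕ) : ℤ), fun a b h =>
      (Fintype.equivFin V).injective (Fin.ext (Int.natCast_inj.mp h)), rfl⟩
  have hfin : {s | ∃ u v, G.Adj u v ∧ s = f u + f v}.Finite :=
    (Set.finite_range (fun p : V × V => f p.1 + f p.2)).subset
      (by rintro s ⟨u, v, -, rfl⟩; exact ⟨(u, v), rfl⟩)
  set S := hfin.toFinset with hS
  have hSc : S.card ≤ C := by
    rw [← Set.ncard_eq_toFinset_card _ hfin, hn]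
    exact hG
  obtain ⟨K, hK⟩ : ∃ K : ℤ, ∀ v, 0 ≤ f v + K := by
    obtain ⟨K, hK⟩ := (Set.finite_range f).bddBelow
    exact ⟨-K, fun v => by have := hK ⟨v, rfl⟩; omega⟩
  let τ : V → Finset ℤ := fun v => S.filter fun s => ∃ w, G.Adj v w ∧ s = f v + f w
  let i : V → ℕ := fun v => Encodable.encode (τ v)
  obtain ⟨B, hB⟩ : ∃ B, ∀ v, i v ≤ B := by
    obtain ⟨B, hB⟩ := (Set.finite_range i).bddAbove
    exact ⟨B, fun v => hB ⟨v, rfl⟩⟩
  obtain ⟨M, hM1, hM2⟩ : ∃ M, (∀ u v, i u * i u + i v * i v < M) ∧ ∀ u v, i u + i v < M := by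
    refine ⟨2 * B * B + 2 * B + 1, fun u v => ?_, fun u v => ?_⟩
    · nlinarith [Nat.mul_le_mul (hB u) (hB u), Nat.mul_le_mul (hB v) (hB v)]
    · have := hB u
      have := hB v
      omega
  let h : V → ℕ := fun v => i v * i v + M * (i v + M * (f v + K).toNat)
  have hsum : ∀ u v, h u + h v = (i u * i u + i v * i v) +
      M * ((i u + i v) + M * (f u + f v + 2 * K).toNat) := by
    intro u v
    have : (f u + f v + 2 * K).toNat = (f u + K).toNat + (f v + K).toNat := by
      have := hK u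
      have := hK v
      omega
    rw [this]
    simp only [h]
    ring
  have hdec : ∀ u v a b, h u + h v = h a + h b →
      (τ u = τ a ∨ τ u = τ b) ∧ f u + f v = f a + f b := by
    intro u v a b e
    rw [hsum, hsum] at e
    obtain ⟨e1, e2⟩ := dec (hM1 u v) (hM1 a b) e
    obtain ⟨e3, e4⟩ := dec (hM2 u v) (hM2 a b) e2
    refine ⟨?_, by have := hK u; have := hK v; have := hK a; have := hK b; omega⟩
    have e5 : ((i u : ℤ) - i a) * ((i u : ℤ) - i b) = 0 := by
      have e1' : (i u : ℤ) * i u + i v * i v = i a * i a + i b * i b := by exact_mod_cast e1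
      have e3' : (i v : ℤ) = i a + i b - i u := by omega
      rw [e3'] at e1'
      linarith
    rcases mul_eq_zero.mp e5 with e6 | e6
    · exact Or.inl (Encodable.encode_injective (by simp only [i] at e6; omega))
    · exact Or.inr (Encodable.encode_injective (by simp only [i] at e6; omega))
  let T : Finset ℕ := (univ.filter fun p : V × V => G.Adj p.1 p.2).image fun p => h p.1 + h p.2
  refine ⟨T.card, ?_, excl_of G h ?_ T ?_⟩
  · have : T ⊆ (S ×ˢ (S.powerset ×ˢ S.powerset)).image fun q =>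
        (Encodable.encode q.2.1 * Encodable.encode q.2.1 +
          Encodable.encode q.2.2 * Encodable.encode q.2.2) +
        M * ((Encodable.encode q.2.1 + Encodable.encode q.2.2) + M * (q.1 + 2 * K).toNat) := by
      intro t ht
      obtain ⟨⟨u, v⟩, huv, rfl⟩ := mem_image.mp ht
      refine mem_image.mpr ⟨(f u + f v, τ u, τ v), ?_, (hsum u v).symm⟩
      simp only [mem_product, mem_powerset]
      exact ⟨(Set.Finite.mem_toFinset _).mpr ⟨u, v, (mem_filter.mp huv).2, rfl⟩,
        filter_subset _ _, filter_subset _ _⟩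
    refine le_trans (card_le_card this) (le_trans card_image_le ?_)
    simp only [card_product, card_powerset]
    gcongr <;> norm_num
  · intro u v e
    have := (hdec u u v v (by rw [e])).2
    exact hf (by omega)
  · intro u v _
    refine ⟨fun huv => mem_image.mpr ⟨(u, v), by simpa using huv, rfl⟩, fun ht => ?_⟩
    obtain ⟨⟨a, b⟩, hab, e⟩ := mem_image.mp ht
    have hab : G.Adj a b := (mem_filter.mp hab).2
    obtain ⟨h1, h2⟩ := hdec u v a b e.symm
    have hs : f a + f b ∈ S := (Set.Finite.mem_toFinset _).mpr ⟨a, b, hab, rfl⟩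
    have : f a + f b ∈ τ u := by
      rcases h1 with h1 | h1 <;> rw [h1]
      · exact mem_filter.mpr ⟨hs, b, hab, rfl⟩
      · exact mem_filter.mpr ⟨hs, a, hab.symm, add_comm _ _⟩
    obtain ⟨w, hw, e2⟩ := (mem_filter.mp this).2
    rwa [← hf (by omega : f w = f v)]

end Pool.Agent.Results.MP_091b59_co.Bounded
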